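import Pool.Agent.R204.OSc

/-!
MP_1fe8eb_co, Q1: there is a constant `N` such that for every tree (indeed every connected
graph) on `n` vertices, no stopping algorithm has expected number of components more than
`n / 4 + N`.
-/

namespace Pool.Agent.Results.MP_1fe8eb_co.AdditiveBound

open Finset Pool.Agent.R204.OS

/-- The set of the vertices active at time `t`: the first `t` vertices of the ordering `σ`. -/
def active {n : ℕ} (σ : Equiv.Perm (Fin n)) (t : ℕ) : Set (Fin n) :=
  {v | ∃ i : Fin n, i.val < t ∧ σ i = v}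

/-- `CC(σ, t)`: the number of connected components of the subgraph induced by the active
vertices. -/
noncomputable def CC {n : ℕ} (G : SimpleGraph (Fin n)) (σ : Equiv.Perm (Fin n)) (t : ℕ) : ℕ :=
  Nat.card (G.induce (active σ t)).ConnectedComponent

/-- A stopping algorithm (full information variant): a function from orderings to times
`1, ..., n` such that whenever two orderings agree up to the stopping time of the first, the
stopping times are equal. -/
structure StoppingAlgorithm {n : ℕ} (A : Equiv.Perm (Fin n) → ℕ) : Prop where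
  one_le : ∀ σ, 1 ≤ A σ
  le : ∀ σ, A σ ≤ n
  adapted : ∀ σ τ, (∀ i : Fin n, i.val < A σ → σ i = τ i) → A τ = A σ

/-- The score of the algorithm `A` on the graph `G`: the expected number of components at the
stopping time, for a uniformly random ordering. -/
noncomputable def score {n : ℕ} (G : SimpleGraph (Fin n)) (A : Equiv.Perm (Fin n) → ℕ) : ℝ :=
  (∑ σ : Equiv.Perm (Fin n), (CC G σ (A σ) : ℝ)) / (n.factorial : ℝ)

lemma mem_active_iff {n : ℕ} (σ : Equiv.Perm (Fin n)) (t : ℕ) (v : Fin n) :
    v ∈ active σ t ↔ v ∉ inact σ t := by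
  rw [mem_inact]
  constructor
  · rintro ⟨i, hi, rfl⟩ ⟨j, hj, hij⟩
    have := σ.injective hij
    subst this
    omega
  · intro h
    refine ⟨σ.symm v, ?_, by simp⟩
    by_contra hcon
    push Not at hcon
    exact h ⟨σ.symm v, hcon, by simp⟩

/-- parents in a breadth first search tree -/
lemma exists_parent {n : ℕ} {G : SimpleGraph (Fin n)} (hG : G.Connected) (r v : Fin n)
    (hv : v ≠ r) : ∃ u, G.Adj u v ∧ G.dist u r + 1 = G.dist v r := by
  obtain ⟨w, hw⟩ := (hG.preconnected v r).exists_walk_length_eq_dist
  cases w with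
  | nil => exact absurd rfl hv
  | cons h q =>
    rename_i u
    refine ⟨u, h.symm, ?_⟩
    rw [SimpleGraph.Walk.length_cons] at hw
    have h1 : G.dist u r ≤ q.length := SimpleGraph.dist_le q
    obtain ⟨w', hw'⟩ := (hG.preconnected u r).exists_walk_length_eq_dist
    have h2 : G.dist v r ≤ (SimpleGraph.Walk.cons h w').length := SimpleGraph.dist_le _
    rw [SimpleGraph.Walk.length_cons, hw'] at h2
    omega

/-- every component of the active graph has a top vertex -/
lemma card_components_le {n : ℕ} {G : SimpleGraph (Fin n)} (r : Fin n)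
    (p : Fin n → Fin n) (hp : ∀ v, v ≠ r → G.Adj (p v) v ∧ G.dist (p v) r + 1 = G.dist v r)
    (σ : Equiv.Perm (Fin n)) (t : ℕ) :
    CC G σ t ≤ (univ.filter fun v => v ∉ inact σ t ∧ (v = r ∨ p v ∈ inact σ t)).card := by
  classical
  set S := active σ t with hS
  set T := univ.filter fun v => v ∉ inact σ t ∧ (v = r ∨ p v ∈ inact σ t) with hT
  have htop : ∀ c : (G.induce S).ConnectedComponent, ∃ w : S,
      (G.induce S).connectedComponentMk w = c ∧
      ∀ w' : S, (G.induce S).connectedComponentMk w' = c → G.dist w r ≤ G.dist w' r := by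
    intro c
    obtain ⟨w0, hw0⟩ := c.nonempty_supp
    obtain ⟨w, hw, hmin⟩ := Set.exists_min_image c.supp (fun w : S => G.dist w r)
      (Set.toFinite _) ⟨w0, hw0⟩
    exact ⟨w, hw, fun w' hw' => hmin w' hw'⟩
  choose top h1 h2 using htop
  have hmem : ∀ c, (top c : Fin n) ∈ T := by
    intro c
    rw [hT, mem_filter]
    have hin : (top c : Fin n) ∉ inact σ t := (mem_active_iff σ t _).mp (top c).2
    refine ⟨mem_univ _, hin, ?_⟩
    by_contra hcon
    push Not at hcon
    obtain ⟨hadj, hd⟩ := hp _ hcon.1
    have hpS : p (top c) ∈ S := (mem_active_iff σ t _).mpr hcon.2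
    have hadj' : (G.induce S).Adj ⟨p (top c), hpS⟩ (top c) := hadj
    have hcc : (G.induce S).connectedComponentMk ⟨p (top c), hpS⟩ = c :=
      (SimpleGraph.ConnectedComponent.eq.mpr hadj'.reachable).trans (h1 c)
    have := h2 c _ hcc
    simp only at this
    omega
  have hinj : Function.Injective (fun c => (⟨(top c : Fin n), hmem c⟩ : {x // x ∈ T})) := by
    intro c c' h
    simp only [Subtype.mk.injEq] at h
    have : top c = top c' := Subtype.ext h
    rw [← h1 c, ← h1 c', this]
  have := Nat.card_le_card_of_injective _ hinj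
  rw [Nat.card_eq_fintype_card (α := {x // x ∈ T}), Fintype.card_coe] at this
  exact this

theorem connected_bound {n : ℕ} (G : SimpleGraph (Fin n)) (hG : G.Connected)
    (A : Equiv.Perm (Fin n) → ℕ) (hA : StoppingAlgorithm A) :
    score G A ≤ (n : ℝ) / 4 + 2515 := by
  classical
  obtain ⟨r⟩ := hG.nonempty
  have hpar : ∀ v, ∃ u, v ≠ r → G.Adj u v ∧ G.dist u r + 1 = G.dist v r := by
    intro v
    by_cases hv : v = r
    · exact ⟨v, fun h => absurd hv h⟩
    · obtain ⟨u, hu⟩ := exists_parent hG r v hv
      exact ⟨u, fun _ => hu⟩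
  choose p hp using hpar
  have hfac : (0 : ℝ) < (n.factorial : ℝ) := by exact_mod_cast n.factorial_pos
  unfold score
  rw [div_le_iff₀ hfac]
  by_cases hn : 16 ≤ n
  · set O : Finset (Fin n) := univ.filter fun v => G.dist v r % 2 = 1 with hO
    set E : Finset (Fin n) := univ.filter fun v => v ≠ r ∧ G.dist v r % 2 = 0 with hE
    have hrr : G.dist r r = 0 := SimpleGraph.dist_self
    have hpO : ∀ v ∈ O, p v ∉ O := by
      intro v hv hpv
      rw [hO, mem_filter] at hv hpv
      have hvr : v ≠ r := by
        rintro rfl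
        rw [hrr] at hv
        omega
      have := (hp v hvr).2
      omega
    have hpE : ∀ v ∈ E, p v ∉ E := by
      intro v hv hpv
      rw [hE, mem_filter] at hv hpv
      have := (hp v hv.2.1).2
      omega
    have hcard : O.card + E.card ≤ n := by
      rw [← card_union_of_disjoint]
      · have := card_le_univ (O ∪ E)
        rwa [Fintype.card_fin] at this
      · rw [disjoint_left]
        intro v h1 h2
        rw [hO, mem_filter] at h1
        rw [hE, mem_filter] at h2
        omega
    have hCC : ∀ σ : Equiv.Perm (Fin n), (CC G σ (A σ) : ℝ)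
        ≤ 1 + (Xc O p (inact σ (A σ)) : ℝ) + (Xc E p (inact σ (A σ)) : ℝ) := by
      intro σ
      have h1 := card_components_le r p (fun v hv => hp v hv) σ (A σ)
      have h2 : (univ.filter fun v => v ∉ inact σ (A σ) ∧ (v = r ∨ p v ∈ inact σ (A σ)))
          ⊆ ({r} ∪ (O.filter fun v => v ∉ inact σ (A σ) ∧ p v ∈ inact σ (A σ)))
            ∪ (E.filter fun v => v ∉ inact σ (A σ) ∧ p v ∈ inact σ (A σ)) := by
        intro v hv
        rw [mem_filter] at hv
        have mO : v ∈ O ↔ v ∈ univ ∧ G.dist v r % 2 = 1 := by rw [hO, mem_filter]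
        have mE : v ∈ E ↔ v ∈ univ ∧ v ≠ r ∧ G.dist v r % 2 = 0 := by rw [hE, mem_filter]
        rw [mem_union, mem_union, mem_singleton, mem_filter (s := O), mem_filter (s := E), mO, mE]
        by_cases hvr : v = r
        · exact Or.inl (Or.inl hvr)
        · have hpv : p v ∈ inact σ (A σ) := hv.2.2.resolve_left hvr
          have : G.dist v r % 2 = 1 ∨ G.dist v r % 2 = 0 := by omega
          rcases this with h | h
          · exact Or.inl (Or.inr ⟨⟨mem_univ _, h⟩, hv.2.1, hpv⟩)
          · exact Or.inr ⟨⟨mem_univ _, hvr, h⟩, hv.2.1, hpv⟩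
      have h3 := card_le_card h2
      have h4 := card_union_le
        ({r} ∪ (O.filter fun v => v ∉ inact σ (A σ) ∧ p v ∈ inact σ (A σ)))
        (E.filter fun v => v ∉ inact σ (A σ) ∧ p v ∈ inact σ (A σ))
      have h5 := card_union_le ({r} : Finset (Fin n))
        (O.filter fun v => v ∉ inact σ (A σ) ∧ p v ∈ inact σ (A σ))
      rw [card_singleton] at h5
      have h6 : CC G σ (A σ) ≤ 1 + Xc O p (inact σ (A σ)) + Xc E p (inact σ (A σ)) := by
        unfold Xc
        omega
      exact_mod_cast h6
    have hO' := layer_bound hpO hn A hA.le hA.adapted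
    have hE' := layer_bound hpE hn A hA.le hA.adapted
    have hsum : ∑ σ : Equiv.Perm (Fin n), (1 : ℝ) = n.factorial := by
      rw [Finset.sum_const, nsmul_eq_mul, mul_one, card_univ, Fintype.card_perm,
        Fintype.card_fin]
    have hc : (O.card : ℝ) + E.card ≤ n := by exact_mod_cast hcard
    calc ∑ σ : Equiv.Perm (Fin n), (CC G σ (A σ) : ℝ)
        ≤ ∑ σ : Equiv.Perm (Fin n), (1 + (Xc O p (inact σ (A σ)) : ℝ)
          + (Xc E p (inact σ (A σ)) : ℝ)) := Finset.sum_le_sum fun σ _ => hCC σ
      _ = n.factorial + ∑ σ : Equiv.Perm (Fin n), (Xc O p (inact σ (A σ)) : ℝ)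
          + ∑ σ : Equiv.Perm (Fin n), (Xc E p (inact σ (A σ)) : ℝ) := by
          rw [Finset.sum_add_distrib, Finset.sum_add_distrib, hsum]
      _ ≤ n.factorial + n.factorial * ((O.card : ℝ) / 4 + 1257)
          + n.factorial * ((E.card : ℝ) / 4 + 1257) := by linarith
      _ = (((O.card : ℝ) + E.card) / 4 + 2515) * n.factorial := by ring
      _ ≤ ((n : ℝ) / 4 + 2515) * n.factorial := by
          apply mul_le_mul_of_nonneg_right _ hfac.le
          linarith
  · push Not at hn
    have hCC : ∀ σ : Equiv.Perm (Fin n), (CC G σ (A σ) : ℝ) ≤ 16 := by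
      intro σ
      have h1 := card_components_le r p (fun v hv => hp v hv) σ (A σ)
      have h2 := card_le_univ
        (univ.filter fun v => v ∉ inact σ (A σ) ∧ (v = r ∨ p v ∈ inact σ (A σ)))
      rw [Fintype.card_fin] at h2
      have h3 : CC G σ (A σ) ≤ 16 := by omega
      exact_mod_cast h3
    calc ∑ σ : Equiv.Perm (Fin n), (CC G σ (A σ) : ℝ)
        ≤ ∑ σ : Equiv.Perm (Fin n), (16 : ℝ) := Finset.sum_le_sum fun σ _ => hCC σ
      _ = 16 * n.factorial := by
          rw [Finset.sum_const, nsmul_eq_mul, card_univ, Fintype.card_perm, Fintype.card_fin]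
          ring
      _ ≤ ((n : ℝ) / 4 + 2515) * n.factorial := by
          apply mul_le_mul_of_nonneg_right _ hfac.le
          have : (0 : ℝ) ≤ (n : ℝ) / 4 := by positivity
          linarith

/-- There is an integer `N` such that for every tree on `n` vertices every stopping algorithm
has score at most `n / 4 + N`; the same holds for all connected graphs. -/
theorem result : ∃ N : ℤ,
    (∀ (n : ℕ) (G : SimpleGraph (Fin n)), G.IsTree →
      ∀ A : Equiv.Perm (Fin n) → ℕ, StoppingAlgorithm A → score G A ≤ (n : ℝ) / 4 + N) ∧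
    (∀ (n : ℕ) (G : SimpleGraph (Fin n)), G.Connected →
      ∀ A : Equiv.Perm (Fin n) → ℕ, StoppingAlgorithm A → score G A ≤ (n : ℝ) / 4 + N) := by
  refine ⟨2515, fun n G hG A hA => ?_, fun n G hG A hA => ?_⟩
  · have := connected_bound G hG.connected A hA
    push_cast
    exact this
  · have := connected_bound G hG A hA
    push_cast
    exact this

end Pool.Agent.Results.MP_1fe8eb_co.AdditiveBound
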